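import Pool.Agent.Run7.h806.TV.Asy

/-!
# Diameters of `SL_n(F_p)` for generating sets with a transvection or an element of small support

Let `p` be a prime, `n = m + 1 ≥ 2`, and let `S` be a generating set of `SL_n(F_p)`.

1. If `S` contains a transvection `t ≠ 1`, every element of `SL_n(F_p)` is a product of at most
   `12 n^3 (12 ⌊p/2⌋ + 4 n^3 + 8 n^2 + 2)` elements of `S` and inverses of elements of `S`.  If
   moreover `n ≥ 3` and `p ≤ n^3`, this is at most `(log |SL_n(F_p)|) ^ 9`; in particular for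
   `p = 2, 3`.
2. For every prime `p` and every `r` there is a constant `C` such that for all `n ≥ 2` the following
   holds.  If `S` contains an element `x` of `SL_n(F_p)`, not a scalar matrix, with
   `rank (x - c) ≤ r` for some `c` in `F_p`, every element is a product of at most `n ^ C` elements
   of `S` and inverses of elements of `S`, and `n ^ C ≤ (log |SL_n(F_p)|) ^ (3 C)`.

See `Pool.Agent.Run7.h806.TV` for the proofs: functions of bounded degree on `SL_n(F_p)` which do not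
vanish identically do not vanish at some word of polynomial length, and, for fixed `p`, closed
conditions are conditions of this kind.
-/

set_option autoImplicit false

namespace Pool.Agent.Results.MP_936a99_al.SmallSupport

open Matrix

/-- the group `SL_n(F_p)`, `n = m + 1` -/
abbrev G (m p : ℕ) := Matrix.SpecialLinearGroup (Fin (m + 1)) (ZMod p)

/-- `g` is a product of at most `k` elements of `S` and inverses of elements of `S` -/
def IsWord {m p : ℕ} (S : Set (G m p)) (k : ℕ) (g : G m p) : Prop :=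
  ∃ l : List (G m p), l.length ≤ k ∧ (∀ x ∈ l, x ∈ S ∨ x⁻¹ ∈ S) ∧ l.prod = g

theorem log_sl (m p : ℕ) [Fact p.Prime] (hm : 1 ≤ m) :
    ((m : ℝ) * (m + 1)) * Real.log p ≤ Real.log (Nat.card (G m p)) := by
  have h1 := Run7.h806.TV.psl_log (ZMod p) m hm
  rw [Nat.card_zmod] at h1
  refine h1.trans ?_
  classical
  have hfs : Finite (G m p) := Finite.of_injective (fun g : G m p => g.1) Subtype.val_injective
  have h2 : Nat.card (Pool.Agent.R167.HG.PSL m (ZMod p)) ≤ Nat.card (G m p) :=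
    Nat.card_le_card_of_surjective
      (QuotientGroup.mk : G m p → Pool.Agent.R167.HG.PSL m (ZMod p)) QuotientGroup.mk_surjective
  have h3 : 0 < Nat.card (Pool.Agent.R167.HG.PSL m (ZMod p)) := by
    have : Finite (Pool.Agent.R167.HG.PSL m (ZMod p)) := Quotient.finite _
    exact Nat.card_pos
  exact Real.log_le_log (by exact_mod_cast h3) (by exact_mod_cast h2)

theorem result :
    (∀ (p : ℕ) [Fact p.Prime] (m : ℕ) (S : Set (G m p)) (e φ : Fin (m + 1) → ZMod p) (t : G m p),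
      Subgroup.closure S = ⊤ → e ≠ 0 → φ ≠ 0 → φ ⬝ᵥ e = 0 → t.1 = 1 + vecMulVec e φ → t ∈ S →
      (∀ g : G m p, IsWord S
        (12 * (m + 1) ^ 3 * (12 * (p / 2) + 4 * (m + 1) ^ 3 + 8 * (m + 1) ^ 2 + 2)) g) ∧
      (2 ≤ m → p ≤ (m + 1) ^ 3 →
        ((12 * (m + 1) ^ 3 * (12 * (p / 2) + 4 * (m + 1) ^ 3 + 8 * (m + 1) ^ 2 + 2) : ℕ) : ℝ) ≤
          (Real.log (Nat.card (G m p))) ^ 9)) ∧
    (∀ (p : ℕ) [Fact p.Prime] (r : ℕ), ∃ C : ℕ, ∀ (m : ℕ), 1 ≤ m →
      (∀ (S : Set (G m p)) (x : G m p) (c : ZMod p), Subgroup.closure S = ⊤ → x ∈ S →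
        x.1 ≠ c • (1 : Matrix (Fin (m + 1)) (Fin (m + 1)) (ZMod p)) →
        (x.1 - c • (1 : Matrix (Fin (m + 1)) (Fin (m + 1)) (ZMod p))).rank ≤ r →
        ∀ g : G m p, IsWord S ((m + 1) ^ C) g) ∧
      ((m : ℝ) + 1) ^ C ≤ (Real.log (Nat.card (G m p))) ^ (3 * C)) := by
  have hlog2 := Real.log_two_gt_d9
  have hL : ∀ (p : ℕ) [Fact p.Prime] (m : ℕ), 1 ≤ m →
      ((m : ℝ) * (m + 1)) * 0.69 ≤ Real.log (Nat.card (G m p)) := by
    intro p hp m hm
    refine le_trans ?_ (log_sl m p hm)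
    have h1 : Real.log 2 ≤ Real.log p :=
      Real.log_le_log (by norm_num) (by exact_mod_cast hp.out.two_le)
    exact mul_le_mul_of_nonneg_left (by linarith) (by positivity)
  refine ⟨?_, ?_⟩
  · intro p hp m S e φ t hS he hφ h ht htS
    refine ⟨fun g => ?_, fun hm hpn => ?_⟩
    · have ht' : t = Run7.h806.TV.T e φ := Run7.h806.TV.T_eq h ht
      have hA : AddSubgroup.closure {c : ZMod p | Run7.h806.TV.T (c • e) φ ∈ S} = ⊤ := by
        rw [eq_top_iff]
        intro y _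
        have h1 : (1 : ZMod p) ∈ AddSubgroup.closure
            {c : ZMod p | Run7.h806.TV.T (c • e) φ ∈ S} := by
          apply AddSubgroup.subset_closure
          show Run7.h806.TV.T ((1 : ZMod p) • e) φ ∈ S
          rwa [one_smul, ← ht']
        have h4 := AddSubgroup.nsmul_mem _ h1 y.val
        rwa [nsmul_eq_mul, mul_one, ZMod.natCast_zmod_val] at h4
      have hR := Run7.h806.TV.R_of_gen (k := 1) (by rw [Nat.card_zmod, pow_one]) h hA
      rw [one_mul] at hR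
      exact Run7.h806.TV.short hS he hφ h hR g
    · have h1 := hL p m (by omega)
      have hm' : (2 : ℝ) ≤ (m : ℝ) := by exact_mod_cast hm
      have h2 : 12 * (m + 1) ^ 3 * (12 * (p / 2) + 4 * (m + 1) ^ 3 + 8 * (m + 1) ^ 2 + 2) ≤
          171 * (m + 1) ^ 6 := by
        have h3 : 12 * (p / 2) ≤ 6 * (m + 1) ^ 3 := by omega
        obtain ⟨j, rfl⟩ : ∃ j, m = j + 1 := ⟨m - 1, by omega⟩
        have h4 : 4 * (12 * (p / 2) + 4 * (j + 1 + 1) ^ 3 + 8 * (j + 1 + 1) ^ 2 + 2) ≤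
            57 * (j + 1 + 1) ^ 3 := by
          have h5 : 4 * (6 * (j + 1 + 1) ^ 3 + 4 * (j + 1 + 1) ^ 3 + 8 * (j + 1 + 1) ^ 2 + 2) ≤
              57 * (j + 1 + 1) ^ 3 := by
            ring_nf
            omega
          omega
        calc 12 * (j + 1 + 1) ^ 3 * (12 * (p / 2) + 4 * (j + 1 + 1) ^ 3 + 8 * (j + 1 + 1) ^ 2 + 2)
            = 3 * (j + 1 + 1) ^ 3 * (4 * (12 * (p / 2) + 4 * (j + 1 + 1) ^ 3 +
              8 * (j + 1 + 1) ^ 2 + 2)) := by ring
          _ ≤ 3 * (j + 1 + 1) ^ 3 * (57 * (j + 1 + 1) ^ 3) := Nat.mul_le_mul_left _ h4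
          _ = 171 * (j + 1 + 1) ^ 6 := by ring
      have h3 : ((12 * (m + 1) ^ 3 * (12 * (p / 2) + 4 * (m + 1) ^ 3 + 8 * (m + 1) ^ 2 + 2) : ℕ) :
          ℝ) ≤ 171 * ((m : ℝ) + 1) ^ 6 := by exact_mod_cast h2
      refine h3.trans ?_
      have h4 : ((m : ℝ) * (m + 1) * 0.69) ^ 9 ≤ (Real.log (Nat.card (G m p))) ^ 9 :=
        pow_le_pow_left₀ (by positivity) h1 9
      refine le_trans ?_ h4
      have e1 : ((m : ℝ) * (m + 1) * 0.69) ^ 9 =
          ((m : ℝ) ^ 9 * ((m : ℝ) + 1) ^ 3 * 0.69 ^ 9) * ((m : ℝ) + 1) ^ 6 := by ring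
      rw [e1]
      apply mul_le_mul_of_nonneg_right _ (by positivity)
      have a1 : (2 : ℝ) ^ 9 ≤ (m : ℝ) ^ 9 := pow_le_pow_left₀ (by norm_num) hm' 9
      have a2 : (3 : ℝ) ^ 3 ≤ ((m : ℝ) + 1) ^ 3 :=
        pow_le_pow_left₀ (by norm_num) (by linarith) 3
      have a3 : (2 : ℝ) ^ 9 * 3 ^ 3 * 0.69 ^ 9 ≤ (m : ℝ) ^ 9 * ((m : ℝ) + 1) ^ 3 * 0.69 ^ 9 :=
        mul_le_mul_of_nonneg_right (mul_le_mul a1 a2 (by positivity) (by positivity)) (by positivity)
      refine le_trans ?_ a3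
      norm_num
  · intro p hp r
    obtain ⟨C, hC⟩ := Run7.h806.TV.bounded_support (ZMod p) r
    refine ⟨C, fun m hm => ⟨fun S x c hS hx hc hr g => ?_, ?_⟩⟩
    · exact hC m (G m p) (MonoidHom.id _) S x c hm Function.surjective_id hS hx hc hr g
    · rw [pow_mul]
      apply pow_le_pow_left₀ (by positivity)
      have h1 := hL p m hm
      have hm' : (1 : ℝ) ≤ (m : ℝ) := by exact_mod_cast hm
      have h4 : ((m : ℝ) * (m + 1) * 0.69) ^ 3 ≤ (Real.log (Nat.card (G m p))) ^ 3 :=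
        pow_le_pow_left₀ (by positivity) h1 3
      refine le_trans ?_ h4
      have e1 : ((m : ℝ) * (m + 1) * 0.69) ^ 3 =
          ((m : ℝ) ^ 3 * ((m : ℝ) + 1) ^ 2 * 0.69 ^ 3) * ((m : ℝ) + 1) := by ring
      rw [e1]
      have a1 : (1 : ℝ) ≤ (m : ℝ) ^ 3 := one_le_pow₀ hm'
      have a2 : (4 : ℝ) ≤ ((m : ℝ) + 1) ^ 2 := by nlinarith
      have a3 : (1 : ℝ) ≤ (m : ℝ) ^ 3 * ((m : ℝ) + 1) ^ 2 * 0.69 ^ 3 := by
        have : (4 : ℝ) ≤ (m : ℝ) ^ 3 * ((m : ℝ) + 1) ^ 2 := by nlinarith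
        norm_num
        nlinarith
      nlinarith

end Pool.Agent.Results.MP_936a99_al.SmallSupport
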